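import Pool.Agent.H909Z.Onn.Rep
import Pool.Agent.H909Z.Onn.Two

set_option autoImplicit false

namespace H909Z.Onn

open Matrix Module

variable {A F : Type} [CommRing A] [Field F]

/-- a local ring of length two with residue map `π` and uniformiser `ϖ` -/
structure Setup (π : A →+* F) (ϖ : A) : Prop where
  surj : Function.Surjective π
  sq : ∀ a b, π a = 0 → π b = 0 → a * b = 0
  hϖ : π ϖ = 0
  ne : ϖ ≠ 0
  gen : ∀ a, π a = 0 → ∃ c, a = ϖ * c

variable {π : A →+* F} {ϖ : A}

theorem Setup.isUnit (h : Setup π ϖ) {a : A} (ha : π a ≠ 0) : IsUnit a := by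
  obtain ⟨b, hb⟩ := h.surj (π a)⁻¹
  have h1 : π (a * b - 1) = 0 := by simp [hb, ha]
  have h2 := h.sq _ _ h1 h1
  exact IsUnit.of_mul_eq_one (b * (2 - a * b)) (by linear_combination -h2)

theorem Setup.red_surj (h : Setup π ϖ) :
    Function.Surjective (GeneralLinearGroup.map π : GL (Fin 3) A →* GL (Fin 3) F) := by
  intro g
  let M : Matrix (Fin 3) (Fin 3) A := (g : Matrix (Fin 3) (Fin 3) F).map (Function.surjInv h.surj)
  have hM : π.mapMatrix M = (g : Matrix (Fin 3) (Fin 3) F) := by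
    ext i j
    simp [M, Function.surjInv_eq h.surj]
  have hdet : IsUnit M.det := by
    apply h.isUnit
    rw [RingHom.map_det, hM]
    exact g.det_ne_zero
  refine ⟨GeneralLinearGroup.mk'' M hdet, ?_⟩
  apply Units.ext
  exact hM

/-- the element `1 + ϖ Y` -/
def kk (h : Setup π ϖ) (Y : Matrix (Fin 3) (Fin 3) A) : GL (Fin 3) A :=
  ⟨1 + ϖ • Y, 1 - ϖ • Y, by
    have := h.sq _ _ h.hϖ h.hϖ
    simp [add_mul, mul_sub, smul_smul, smul_add, this], by
    have := h.sq _ _ h.hϖ h.hϖ
    simp [sub_mul, mul_add, smul_smul, smul_sub, this]⟩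

theorem kk_val (h : Setup π ϖ) (Y : Matrix (Fin 3) (Fin 3) A) :
    (kk h Y : Matrix (Fin 3) (Fin 3) A) = 1 + ϖ • Y := rfl

theorem kk_mul (h : Setup π ϖ) (Y Z : Matrix (Fin 3) (Fin 3) A) :
    kk h Y * kk h Z = kk h (Y + Z) := by
  apply Units.ext
  have := h.sq _ _ h.hϖ h.hϖ
  simp only [Units.val_mul, kk_val]
  simp [add_mul, mul_add, smul_smul, smul_add, this, add_assoc]

theorem kk_zero (h : Setup π ϖ) : kk h 0 = 1 := by
  apply Units.ext
  simp [kk_val]

theorem kk_conj (h : Setup π ϖ) (x : GL (Fin 3) A) (Y : Matrix (Fin 3) (Fin 3) A) :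
    x * kk h Y * x⁻¹ = kk h ((x : Matrix (Fin 3) (Fin 3) A) * Y * (x⁻¹ : GL (Fin 3) A)) := by
  apply Units.ext
  simp only [Units.val_mul, kk_val]
  rw [mul_add, add_mul, mul_one, Units.mul_inv, Matrix.mul_smul, Matrix.smul_mul]

theorem kk_congr (h : Setup π ϖ) {Y Z : Matrix (Fin 3) (Fin 3) A} (hYZ : Y.map π = Z.map π) :
    kk h Y = kk h Z := by
  apply Units.ext
  simp only [kk_val]
  congr 1
  ext i j
  have h1 : π (Y i j - Z i j) = 0 := by
    have := congrFun (congrFun hYZ i) j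
    simp only [map_apply] at this
    rw [map_sub, this, sub_self]
  have := h.sq _ _ h.hϖ h1
  simp only [Matrix.smul_apply, smul_eq_mul]
  linear_combination this

/-- the congruence kernel -/
abbrev KK (π : A →+* F) : Subgroup (GL (Fin 3) A) :=
  (GeneralLinearGroup.map π : GL (Fin 3) A →* GL (Fin 3) F).ker

theorem mem_KK {g : GL (Fin 3) A} : g ∈ KK π ↔
    ∀ i j, π (g.val i j - (1 : Matrix (Fin 3) (Fin 3) A) i j) = 0 := by
  rw [MonoidHom.mem_ker]
  constructor
  · intro hg i j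
    have : (GeneralLinearGroup.map π g) i j = (1 : GL (Fin 3) F) i j := by rw [hg]
    rw [GeneralLinearGroup.map_apply] at this
    rw [map_sub, this]
    by_cases hij : i = j <;> simp [hij, Matrix.one_apply]
  · intro hg
    apply Units.ext
    ext i j
    have := hg i j
    rw [map_sub, sub_eq_zero] at this
    rw [GeneralLinearGroup.map_apply, this]
    by_cases hij : i = j <;> simp [hij, Matrix.one_apply]

theorem kk_mem (h : Setup π ϖ) (Y : Matrix (Fin 3) (Fin 3) A) : kk h Y ∈ KK π := by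
  rw [mem_KK]
  intro i j
  simp [kk_val, h.hϖ]

theorem exists_kk (h : Setup π ϖ) {g : GL (Fin 3) A} (hg : g ∈ KK π) : ∃ Y, g = kk h Y := by
  rw [mem_KK] at hg
  choose Y hY using fun i j => h.gen _ (hg i j)
  refine ⟨Matrix.of Y, Units.ext ?_⟩
  ext i j
  rw [kk_val]
  simp only [Matrix.add_apply, Matrix.smul_apply, of_apply, smul_eq_mul]
  linear_combination hY i j

theorem KK_comm (h : Setup π ϖ) : ∀ a ∈ KK π, ∀ b ∈ KK π, a * b = b * a := by
  intro a ha b hb
  obtain ⟨Y, rfl⟩ := exists_kk h ha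
  obtain ⟨Z, rfl⟩ := exists_kk h hb
  rw [kk_mul, kk_mul, add_comm]

theorem KK_index (h : Setup π ϖ) : (KK π).index = Nat.card (GL (Fin 3) F) := by
  rw [Subgroup.index_ker, MonoidHom.range_eq_top.mpr h.red_surj]
  simp

theorem stab_two {π : A →+* ZMod 2} (h : Setup π ϖ) (ψ : GL (Fin 3) A → ℂ) (h1 : ψ 1 = 1)
    (hm : ∀ a ∈ KK π, ∀ b ∈ KK π, ψ (a * b) = ψ a * ψ b) :
    ∃ g, g ∉ KK π ∧ ∀ k ∈ KK π, ψ (g⁻¹ * k * g) = ψ k := by
  classical
  let Ψ : Matrix (Fin 3) (Fin 3) (ZMod 2) → ℂ := fun X => ψ (kk h (X.map (Function.surjInv h.surj)))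
  have hΨ : ∀ Y : Matrix (Fin 3) (Fin 3) A, ψ (kk h Y) = Ψ (Y.map π) := by
    intro Y
    simp only [Ψ]
    congr 1
    apply kk_congr
    ext i j
    simp [Function.surjInv_eq h.surj]
  have hlift : ∀ X : Matrix (Fin 3) (Fin 3) (ZMod 2),
      (X.map (Function.surjInv h.surj)).map π = X := by
    intro X
    ext i j
    simp [Function.surjInv_eq h.surj]
  have hadd : ∀ X Z, Ψ (X + Z) = Ψ X * Ψ Z := by
    intro X Z
    have := hm _ (kk_mem h (X.map (Function.surjInv h.surj))) _
      (kk_mem h (Z.map (Function.surjInv h.surj)))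
    rw [kk_mul, hΨ, Matrix.map_add _ (map_add π), hlift, hlift] at this
    exact this
  have h0 : Ψ 0 = 1 := by
    have := hΨ 0
    rw [kk_zero, h1, Matrix.map_zero _ (map_zero π)] at this
    exact this.symm
  have hsq : ∀ X, Ψ X = 1 ∨ Ψ X = -1 := by
    intro X
    have h2 : X + X = 0 := by
      ext i j
      simp only [Matrix.add_apply, Matrix.zero_apply]
      exact CharTwo.add_self_eq_zero _
    have := hadd X X
    rw [h2, h0] at this
    exact mul_self_eq_one_iff.mp this.symm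
  let l : Matrix (Fin 3) (Fin 3) (ZMod 2) →+ ZMod 2 :=
    { toFun := fun X => if Ψ X = 1 then 0 else 1
      map_zero' := by simp [h0]
      map_add' := by
        intro X Z
        have hn : (-1 : ℂ) ≠ 1 := by norm_num
        rw [hadd]
        rcases hsq X with hX | hX <;> rcases hsq Z with hZ | hZ <;> simp [hX, hZ, hn]
        decide }
  have hl : ∀ X Z, l X = l Z → Ψ X = Ψ Z := by
    intro X Z hXZ
    have hn : (-1 : ℂ) ≠ 1 := by norm_num
    have e : (if Ψ X = 1 then (0 : ZMod 2) else 1) = if Ψ Z = 1 then 0 else 1 := hXZ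
    rcases hsq X with hX | hX <;> rcases hsq Z with hZ | hZ <;> simp [hX, hZ, hn] at e ⊢
  let B : Matrix (Fin 3) (Fin 3) (ZMod 2) := Matrix.of fun j i => l (Matrix.single i j 1)
  have hB : ∀ X, l X = (B * X).trace := by
    intro X
    conv_lhs => rw [Matrix.matrix_eq_sum_single X]
    rw [map_sum]
    simp only [map_sum, Matrix.trace, Matrix.diag, Matrix.mul_apply, B, of_apply]
    rw [Finset.sum_comm]
    refine Finset.sum_congr rfl fun j _ => Finset.sum_congr rfl fun i _ => ?_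
    have hc : ∀ c : ZMod 2, c = 0 ∨ c = 1 := by decide
    rcases hc (X i j) with h' | h' <;> simp [h']
  obtain ⟨g0, hg1, hg2, hg3⟩ := exists_centralizer B
  obtain ⟨g, hg⟩ := h.red_surj (GeneralLinearGroup.mkOfDetNeZero g0 (by rw [hg1]; exact one_ne_zero))
  have hgv : (g : Matrix (Fin 3) (Fin 3) A).map π = g0 := congrArg Units.val hg
  refine ⟨g, fun hK => hg2 ?_, fun k hk => ?_⟩
  · rw [MonoidHom.mem_ker, hg] at hK
    exact congrArg Units.val hK
  · obtain ⟨Y, rfl⟩ := exists_kk h hk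
    have := kk_conj h g⁻¹ Y
    rw [inv_inv] at this
    rw [this, hΨ, hΨ]
    apply hl
    rw [hB, hB, Matrix.map_mul, Matrix.map_mul, hgv]
    have hinv : g0 * ((g⁻¹ : GL (Fin 3) A) : Matrix (Fin 3) (Fin 3) A).map π = 1 := by
      rw [← hgv, ← Matrix.map_mul, Units.mul_inv]
      simp
    rw [← mul_assoc, Matrix.trace_mul_comm, ← mul_assoc, ← mul_assoc, hg3, mul_assoc B, hinv,
      mul_one]

theorem bound_two [Finite A] {π : A →+* ZMod 2} (h : Setup π ϖ) {V : Type} [AddCommGroup V]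
    [Module ℂ V] [FiniteDimensional ℂ V] [Nontrivial V] (ρ : Representation ℂ (GL (Fin 3) A) V)
    (hirr : ∀ W : Submodule ℂ V, (∀ g v, v ∈ W → ρ g v ∈ W) → W = ⊥ ∨ W = ⊤) :
    finrank ℂ V < 168 := by
  have h1 := finrank_lt_index ρ hirr (KK π) (KK_comm h) (stab_two h)
  rw [KK_index h, Matrix.card_GL_field] at h1
  simpa [Fin.prod_univ_three, ZMod.card] using h1

/-- diagonal matrices -/
def diagHom (F : Type) [Field F] : (Fin 3 → Fˣ) →* GL (Fin 3) F where
  toFun u := ⟨diagonal fun i => (u i : F), diagonal fun i => ((u i)⁻¹ : Fˣ), by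
    rw [diagonal_mul_diagonal]; simp, by
    rw [diagonal_mul_diagonal]; simp⟩
  map_one' := by apply Units.ext; simp
  map_mul' u v := by apply Units.ext; simp [diagonal_mul_diagonal]

theorem diagHom_inj : Function.Injective (diagHom F) := by
  intro u v huv
  funext i
  apply Units.ext
  have : (diagHom F u) i i = (diagHom F v) i i := by rw [huv]
  simpa [diagHom] using this

theorem mem_diag {g : GL (Fin 3) F} :
    g ∈ (diagHom F).range ↔ ∀ i j, i ≠ j → g.val i j = 0 := by
  constructor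
  · rintro ⟨u, rfl⟩ i j hij
    simp [diagHom, hij]
  · intro hg
    have hne : ∀ i, g.val i i ≠ 0 := by
      intro i h0
      have := congrFun (congrFun g.mul_inv i) i
      rw [Matrix.mul_apply, Finset.sum_eq_zero, Matrix.one_apply_eq] at this
      · exact zero_ne_one this
      · intro j _
        by_cases hij : i = j
        · rw [← hij, h0, zero_mul]
        · rw [hg i j hij, zero_mul]
    refine ⟨fun i => Units.mk0 _ (hne i), Units.ext ?_⟩
    ext i j
    by_cases hij : i = j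
    · subst hij; simp [diagHom]
    · simp [diagHom, hij, hg i j hij]

/-- matrices diagonal modulo the maximal ideal -/
def SS (π : A →+* F) : Subgroup (GL (Fin 3) A) :=
  (diagHom F).range.comap (GeneralLinearGroup.map π)

theorem mem_SS {g : GL (Fin 3) A} : g ∈ SS π ↔ ∀ i j, i ≠ j → π (g.val i j) = 0 := by
  rw [SS, Subgroup.mem_comap, mem_diag]
  rfl

theorem KK_le_SS : KK π ≤ SS π := by
  intro g hg
  rw [SS, Subgroup.mem_comap, MonoidHom.mem_ker.mp hg]
  exact Subgroup.one_mem _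

theorem SS_index [Fintype F] (h : Setup π ϖ) : ((SS π).index : ℤ) =
    (Fintype.card F : ℤ) ^ 3 * (Fintype.card F + 1) *
      ((Fintype.card F : ℤ) ^ 2 + Fintype.card F + 1) := by
  classical
  rw [SS, Subgroup.index_comap_of_surjective _ h.red_surj]
  have h1 := Subgroup.index_mul_card (diagHom F).range
  have h2 : Nat.card (diagHom F).range = (Fintype.card F - 1) ^ 3 := by
    rw [← Nat.card_congr (MonoidHom.ofInjective (diagHom_inj (F := F))).toEquiv]
    simp [Nat.card_eq_fintype_card, Fintype.card_units]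
  rw [h2, Matrix.card_GL_field, Fin.prod_univ_three] at h1
  set q := Fintype.card F
  have hq : 2 ≤ q := Fintype.one_lt_card
  have a0 : q ^ ((0 : Fin 3) : ℕ) ≤ q ^ 3 := Nat.pow_le_pow_right (by omega) (by decide)
  have a1 : q ^ ((1 : Fin 3) : ℕ) ≤ q ^ 3 := Nat.pow_le_pow_right (by omega) (by decide)
  have a2 : q ^ ((2 : Fin 3) : ℕ) ≤ q ^ 3 := Nat.pow_le_pow_right (by omega) (by decide)
  have h3 := congrArg (Nat.cast : ℕ → ℤ) h1
  push_cast [a0, a1, a2, show 1 ≤ q by omega] at h3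
  have h4 : ((q : ℤ) - 1) ^ 3 ≠ 0 := pow_ne_zero _ (by omega)
  apply mul_right_cancel₀ h4
  rw [h3]
  simp only [Fin.val_zero, Fin.val_one, Fin.val_two]
  ring

/-- the diagonal entries -/
noncomputable def dd (h : Setup π ϖ) (i : Fin 3) : SS π →* Aˣ :=
  MonoidHom.toHomUnits
    { toFun := fun g => g.1.val i i
      map_one' := by simp
      map_mul' := fun a b => by
        simp only [Subgroup.coe_mul, Units.val_mul, Matrix.mul_apply]
        rw [Finset.sum_eq_single i]
        · intro j _ hj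
          exact h.sq _ _ (mem_SS.mp a.2 i j hj.symm) (mem_SS.mp b.2 j i hj)
        · simp }

theorem dd_val (h : Setup π ϖ) (i : Fin 3) (g : SS π) : (dd h i g : A) = g.1.val i i := rfl

/-- the unit `1 + ϖ c` -/
def uu (h : Setup π ϖ) (c : A) : Aˣ :=
  ⟨1 + ϖ * c, 1 - ϖ * c, by linear_combination (-c ^ 2) * h.sq _ _ h.hϖ h.hϖ,
    by linear_combination (-c ^ 2) * h.sq _ _ h.hϖ h.hϖ⟩

theorem uu_add (h : Setup π ϖ) (c d : A) : uu h (c + d) = uu h c * uu h d := by
  apply Units.ext
  simp only [uu, Units.val_mul]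
  linear_combination (-c * d) * h.sq _ _ h.hϖ h.hϖ

theorem exists_irrep [Finite A] [Fintype F] (h : Setup π ϖ) (h2 : (2 : F) ≠ 0) :
    ∃ (V : Type) (_ : AddCommGroup V) (_ : Module ℂ V)
      (ρ : Representation ℂ (GL (Fin 3) A) V), FiniteDimensional ℂ V ∧ Nontrivial V ∧
      (∀ W : Submodule ℂ V, (∀ g v, v ∈ W → ρ g v ∈ W) → W = ⊥ ∨ W = ⊤) ∧
      (∃ g ∈ KK π, ρ g ≠ 1) ∧
      (finrank ℂ V : ℤ) = (Fintype.card F : ℤ) ^ 3 * (Fintype.card F + 1) *
        ((Fintype.card F : ℤ) ^ 2 + Fintype.card F + 1) := by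
  classical
  have hu1 : uu h 1 ≠ 1 := by
    intro h'
    have := congrArg Units.val h'
    simp only [uu, mul_one, Units.val_one, add_eq_left] at this
    exact h.ne this
  haveI : NeZero (Monoid.exponent Aˣ) := ⟨Monoid.exponent_ne_zero_of_finite⟩
  obtain ⟨θ, hθ⟩ := CommGroup.exists_apply_ne_one_of_hasEnoughRootsOfUnity Aˣ ℂ hu1
  let χ : SS π →* ℂˣ := θ.comp (dd h 1) * θ.comp (dd h 2) * θ.comp (dd h 2)
  let D : Matrix (Fin 3) (Fin 3) A := diagonal ![0, 1, 2]
  have hχ : ∀ (Y : Matrix (Fin 3) (Fin 3) A) (g : SS π), g.1 = kk h Y →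
      χ g = θ (uu h (D * Y).trace) := by
    intro Y g hg
    have e : ∀ i, dd h i g = uu h (Y i i) := by
      intro i
      apply Units.ext
      rw [dd_val, hg, kk_val]
      simp [uu]
    have e2 : (D * Y).trace = Y 1 1 + Y 2 2 + Y 2 2 := by
      simp [D, Matrix.trace, Fin.sum_univ_three, diagonal_mul]
      ring
    rw [e2, uu_add, uu_add, map_mul, map_mul]
    simp [χ, e]
  have hsep : ∀ x : GL (Fin 3) A, x ∉ SS π → ∃ k, ∃ hk : k ∈ KK π,
      χ ⟨x * k * x⁻¹, KK_le_SS (Subgroup.Normal.conj_mem inferInstance k hk x)⟩ ≠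
        χ ⟨k, KK_le_SS hk⟩ := by
    intro x hx
    by_contra hcon
    push Not at hcon
    apply hx
    set xv : Matrix (Fin 3) (Fin 3) A := x.val with hxv
    set xi : Matrix (Fin 3) (Fin 3) A := (x⁻¹ : GL (Fin 3) A).val with hxi
    have hE : ∀ i j, π ((xi * D * xv - D) i j) = 0 := by
      intro i j
      by_contra hne
      obtain ⟨e, he⟩ := h.isUnit hne
      have h3 := hcon _ (kk_mem h (Matrix.single j i (e⁻¹ : Aˣ)))
      rw [hχ _ _ (kk_conj h x _), hχ _ _ rfl] at h3
      have h4 : (D * (xv * Matrix.single j i ((e⁻¹ : Aˣ) : A) * xi)).trace =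
          1 + (D * Matrix.single j i ((e⁻¹ : Aˣ) : A)).trace := by
        have : (D * (xv * Matrix.single j i ((e⁻¹ : Aˣ) : A) * xi)).trace =
            ((xi * D * xv - D) * Matrix.single j i ((e⁻¹ : Aˣ) : A)).trace +
              (D * Matrix.single j i ((e⁻¹ : Aˣ) : A)).trace := by
          rw [← Matrix.trace_add, ← add_mul, sub_add_cancel, ← mul_assoc, Matrix.trace_mul_comm]
          simp only [mul_assoc]
        rw [this, Matrix.trace_mul_single, ← he]
        simp
      rw [h4, uu_add, map_mul] at h3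
      exact hθ (mul_eq_right.mp h3)
    have hE2 : ∀ i j, π ((D * xv - xv * D) i j) = 0 := by
      intro i j
      have : D * xv - xv * D = xv * (xi * D * xv - D) := by
        rw [mul_sub, ← mul_assoc, ← mul_assoc, hxv, hxi, Units.mul_inv, one_mul]
      rw [this, Matrix.mul_apply, map_sum]
      exact Finset.sum_eq_zero fun l _ => by rw [map_mul, hE, mul_zero]
    rw [mem_SS]
    intro i j hij
    have h5 := hE2 i j
    simp only [D, Matrix.sub_apply, diagonal_mul, mul_diagonal, map_sub, map_mul] at h5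
    have h6 : (π ((![0, 1, 2] : Fin 3 → A) i) - π ((![0, 1, 2] : Fin 3 → A) j)) * π (xv i j) = 0 := by
      linear_combination h5
    refine (mul_eq_zero.mp h6).resolve_left ?_
    have hπ2 : π 2 = 2 := map_ofNat π 2
    have h21 : (2 : F) - 1 ≠ 0 := by norm_num
    have h12 : (1 : F) - 2 ≠ 0 := by norm_num
    fin_cases i <;> fin_cases j <;> simp [hπ2, h2, h21, h12] at hij ⊢
  refine ⟨GL (Fin 3) A ⧸ SS π → ℂ, inferInstance, inferInstance, mono (SS π) χ, inferInstance,
    inferInstance, mono_irred (SS π) χ (KK π) KK_le_SS hsep, ?_, ?_⟩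
  · refine mono_ne_one (SS π) χ (KK π) KK_le_SS (kk_mem h (Matrix.single 1 1 1)) ?_
    rw [hχ _ _ rfl, Matrix.trace_mul_single]
    simpa [D] using hθ
  · rw [mono_finrank, SS_index h]

end H909Z.Onn
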