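import Pool.Agent.H909Z.Onn.GLA

set_option autoImplicit false

namespace H909Z.Onn

open IsLocalRing

variable (p : ℕ) [hp : Fact p.Prime]

/-- the residue map of `ℤ_p / p ^ 2` -/
noncomputable def res : (ℤ_[p] ⧸ maximalIdeal ℤ_[p] ^ 2) →+* ZMod p :=
  Ideal.Quotient.lift _ PadicInt.toZMod (fun a ha => by
    rw [← RingHom.mem_ker, PadicInt.ker_toZMod]
    exact Ideal.pow_le_self two_ne_zero ha)

theorem res_mk (a : ℤ_[p]) : res p (Ideal.Quotient.mk _ a) = PadicInt.toZMod a := rfl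

theorem res_eq_zero {x : ℤ_[p] ⧸ maximalIdeal ℤ_[p] ^ 2} (hx : res p x = 0) :
    ∃ a ∈ maximalIdeal ℤ_[p], x = Ideal.Quotient.mk _ a := by
  obtain ⟨a, rfl⟩ := Ideal.Quotient.mk_surjective x
  refine ⟨a, ?_, rfl⟩
  rw [← PadicInt.ker_toZMod, RingHom.mem_ker]
  exact hx

theorem setup : Setup (res p) (Ideal.Quotient.mk _ (p : ℤ_[p])) where
  surj := fun x => ⟨Ideal.Quotient.mk _ (x.val : ℤ_[p]), by rw [res_mk]; simp⟩
  sq := fun a b ha hb => by
    obtain ⟨a', ha', rfl⟩ := res_eq_zero p ha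
    obtain ⟨b', hb', rfl⟩ := res_eq_zero p hb
    rw [← map_mul, Ideal.Quotient.eq_zero_iff_mem, sq]
    exact Ideal.mul_mem_mul ha' hb'
  hϖ := by rw [res_mk]; simp
  ne := by
    rw [Ne, Ideal.Quotient.eq_zero_iff_mem, PadicInt.maximalIdeal_eq_span_p,
      Ideal.span_singleton_pow, Ideal.mem_span_singleton]
    rintro ⟨c, hc⟩
    have hp0 : (p : ℤ_[p]) ≠ 0 := by exact_mod_cast hp.out.ne_zero
    have : (p : ℤ_[p]) * c = 1 := by
      apply mul_left_cancel₀ hp0
      rw [mul_one]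
      linear_combination -hc
    exact PadicInt.irreducible_p.not_isUnit (IsUnit.of_mul_eq_one c this)
  gen := fun a ha => by
    obtain ⟨a', ha', rfl⟩ := res_eq_zero p ha
    rw [PadicInt.maximalIdeal_eq_span_p, Ideal.mem_span_singleton] at ha'
    obtain ⟨c, rfl⟩ := ha'
    exact ⟨Ideal.Quotient.mk _ c, by rw [map_mul]⟩

instance : Finite (ℤ_[p] ⧸ maximalIdeal ℤ_[p] ^ 2) := by
  have h := setup p
  haveI : NeZero p := ⟨hp.out.ne_zero⟩
  refine Finite.of_surjective (fun x : ZMod p × ZMod p =>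
    Function.surjInv h.surj x.1 + Ideal.Quotient.mk _ (p : ℤ_[p]) * Function.surjInv h.surj x.2) ?_
  intro a
  obtain ⟨c, hc⟩ := h.gen (a - Function.surjInv h.surj (res p a))
    (by rw [map_sub, Function.surjInv_eq h.surj, sub_self])
  refine ⟨(res p a, res p c), ?_⟩
  have := h.sq _ (c - Function.surjInv h.surj (res p c)) h.hϖ
    (by rw [map_sub, Function.surjInv_eq h.surj, sub_self])
  simp only
  linear_combination -hc - this

instance : Finite (ResidueField ℤ_[p]) :=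
  haveI : NeZero p := ⟨hp.out.ne_zero⟩
  Finite.of_equiv _ (PadicInt.residueField (p := p)).toEquiv.symm

theorem card_res : Nat.card (ResidueField ℤ_[p]) = p := by
  rw [Nat.card_congr (PadicInt.residueField (p := p)).toEquiv, Nat.card_zmod]

/-- A finite set of integer polynomials whose values contain `e p` for all primes `p ≥ 3`
contains `e`. -/
theorem mem_of_forall (P : Finset (Polynomial ℤ)) (e : Polynomial ℤ)
    (h : ∀ p : ℕ, p.Prime → 3 ≤ p → ∃ d ∈ P, d.eval (p : ℤ) = e.eval (p : ℤ)) : e ∈ P := by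
  classical
  by_contra he
  have h0 : (∏ d ∈ P, (d - e)) ≠ 0 :=
    Finset.prod_ne_zero_iff.mpr fun d hd => sub_ne_zero.mpr fun h' => he (h' ▸ hd)
  apply h0
  apply Polynomial.eq_zero_of_infinite_isRoot
  have hinf : ((fun n : ℕ => (n : ℤ)) '' ({p | p.Prime} \ {p | p < 3})).Infinite :=
    Set.Infinite.image Nat.cast_injective.injOn
      (Nat.infinite_setOf_prime.diff (Set.finite_lt_nat 3))
  refine hinf.mono ?_
  rintro _ ⟨p, ⟨hp1, hp2⟩, rfl⟩
  obtain ⟨d, hd, hde⟩ := h p hp1 (not_lt.mp hp2)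
  simp only [Set.mem_setOf_eq, Polynomial.IsRoot, Polynomial.eval_prod]
  exact Finset.prod_eq_zero hd (by rw [Polynomial.eval_sub, hde, sub_self])

end H909Z.Onn
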