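import Mathlib

set_option autoImplicit false

namespace H909Z.Onn

open Module

section Mono

variable {G : Type} [Group G] (S : Subgroup G) (χ : S →* ℂˣ)

/-- the cocycle of the monomial representation -/
noncomputable def coc (h : G) (q : G ⧸ S) : S :=
  ⟨q.out⁻¹ * (h * (h⁻¹ • q).out), by
    rw [← QuotientGroup.eq]
    rw [← smul_eq_mul, ← MulAction.Quotient.smul_mk, QuotientGroup.out_eq', QuotientGroup.out_eq',
      smul_inv_smul]⟩

theorem coc_mul (a b : G) (q : G ⧸ S) :
    coc S (a * b) q = coc S a q * coc S b (a⁻¹ • q) := by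
  apply Subtype.ext
  simp only [coc, Subgroup.coe_mul, mul_inv_rev, mul_smul]
  group

theorem coc_one (q : G ⧸ S) : coc S 1 q = 1 := by
  apply Subtype.ext
  simp [coc]

/-- the monomial (induced) representation -/
noncomputable def mono : Representation ℂ G (G ⧸ S → ℂ) where
  toFun h :=
    { toFun := fun u q => (χ (coc S h q) : ℂ) * u (h⁻¹ • q)
      map_add' := fun u v => by funext q; simp [mul_add]
      map_smul' := fun c u => by funext q; simp [mul_left_comm] }
  map_one' := by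
    ext u q
    simp [coc_one]
  map_mul' a b := by
    apply LinearMap.ext
    intro u
    funext q
    simp [coc_mul, mul_smul, mul_assoc]

theorem mono_apply (h : G) (u : G ⧸ S → ℂ) (q : G ⧸ S) :
    mono S χ h u q = (χ (coc S h q) : ℂ) * u (h⁻¹ • q) := rfl

theorem fix_of_normal (K : Subgroup G) [hK : K.Normal] (hKS : K ≤ S) {k : G} (hk : k ∈ K)
    (q : G ⧸ S) : k⁻¹ • q = q := by
  conv_lhs => rw [← QuotientGroup.out_eq' q]
  conv_rhs => rw [← QuotientGroup.out_eq' q]
  rw [MulAction.Quotient.smul_mk, QuotientGroup.eq, smul_eq_mul]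
  apply hKS
  have := hK.conj_mem' k hk q.out
  simpa [mul_assoc] using this

theorem mono_irred [Finite G] (K : Subgroup G) [hK : K.Normal] (hKS : K ≤ S)
    (hsep : ∀ x : G, x ∉ S → ∃ k, ∃ hk : k ∈ K,
      χ ⟨x * k * x⁻¹, hKS (hK.conj_mem k hk x)⟩ ≠ χ ⟨k, hKS hk⟩)
    (W : Submodule ℂ (G ⧸ S → ℂ)) (hW : ∀ g v, v ∈ W → mono S χ g v ∈ W) : W = ⊥ ∨ W = ⊤ := by
  classical
  by_cases hbot : W = ⊥
  · exact Or.inl hbot
  right
  obtain ⟨f, hfW, hf0⟩ := (Submodule.ne_bot_iff W).mp hbot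
  obtain ⟨q0, hq0⟩ : ∃ q0, f q0 ≠ 0 := by
    by_contra h
    push Not at h
    exact hf0 (funext h)
  have step : ∀ T : Finset (G ⧸ S), q0 ∉ T → ∃ u ∈ W, u q0 ≠ 0 ∧ ∀ q ∈ T, u q = 0 := by
    intro T
    induction T using Finset.induction_on with
    | empty => intro _; exact ⟨f, hfW, hq0, by simp⟩
    | insert a T haT ih =>
      intro hq
      rw [Finset.mem_insert, not_or] at hq
      obtain ⟨u, huW, hu0, huT⟩ := ih hq.2
      have hx : a.out⁻¹ * q0.out ∉ S := by
        rw [← QuotientGroup.eq, QuotientGroup.out_eq', QuotientGroup.out_eq']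
        exact fun h => hq.1 h.symm
      obtain ⟨k', hk', hne⟩ := hsep _ hx
      have hk : q0.out * k' * q0.out⁻¹ ∈ K := hK.conj_mem k' hk' _
      set k := q0.out * k' * q0.out⁻¹ with hkdef
      have hfix := fix_of_normal S K hKS hk
      have e1 : coc S k q0 = ⟨k', hKS hk'⟩ := by
        apply Subtype.ext
        simp only [coc, hfix]
        rw [hkdef]
        group
      have e2 : coc S k a = ⟨a.out⁻¹ * q0.out * k' * (a.out⁻¹ * q0.out)⁻¹,
          hKS (hK.conj_mem k' hk' _)⟩ := by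
        apply Subtype.ext
        simp only [coc, hfix]
        rw [hkdef]
        group
      refine ⟨mono S χ k u - (χ (coc S k a) : ℂ) • u, W.sub_mem (hW _ _ huW) (W.smul_mem _ huW),
        ?_, ?_⟩
      · simp only [Pi.sub_apply, mono_apply, hfix, Pi.smul_apply, smul_eq_mul]
        rw [← sub_mul]
        refine mul_ne_zero (sub_ne_zero.mpr ?_) hu0
        rw [e1, e2]
        exact fun h => hne (Units.ext h.symm)
      · intro q hq'
        simp only [Pi.sub_apply, mono_apply, hfix, Pi.smul_apply, smul_eq_mul]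
        rcases Finset.mem_insert.mp hq' with rfl | h
        · ring
        · rw [huT q h]; ring
  haveI : Fintype (G ⧸ S) := Fintype.ofFinite _
  obtain ⟨u, huW, hu0, huT⟩ := step (Finset.univ.erase q0) (by simp)
  have hsingle : ∀ q : G ⧸ S, (Pi.single q (1 : ℂ) : G ⧸ S → ℂ) ∈ W := by
    intro q
    obtain ⟨g, hg⟩ := MulAction.exists_smul_eq G q0 q
    have h1 := hW g u huW
    have hc : (χ (coc S g q) : ℂ) * u q0 ≠ 0 := mul_ne_zero (Units.ne_zero _) hu0
    have h2 : (Pi.single q (1 : ℂ) : G ⧸ S → ℂ) =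
        ((χ (coc S g q) : ℂ) * u q0)⁻¹ • mono S χ g u := by
      funext q'
      simp only [Pi.smul_apply, mono_apply, smul_eq_mul]
      by_cases hq' : q' = q
      · subst hq'
        have : g⁻¹ • q' = q0 := by rw [← hg, inv_smul_smul]
        rw [this, inv_mul_cancel₀ hc]; simp
      · have : g⁻¹ • q' ≠ q0 := by
          intro h
          apply hq'
          rw [← hg, ← h, smul_inv_smul]
        rw [huT (g⁻¹ • q') (by simp [this]), Pi.single_eq_of_ne hq']; simp
    rw [h2]
    exact W.smul_mem _ h1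
  rw [eq_top_iff]
  intro v _
  rw [pi_eq_sum_univ' v]
  exact W.sum_mem fun q _ => W.smul_mem _ (hsingle q)

theorem mono_ne_one (K : Subgroup G) [hK : K.Normal] (hKS : K ≤ S) {k : G} (hk : k ∈ K)
    (hχ : χ ⟨k, hKS hk⟩ ≠ 1) : ∃ k' ∈ K, mono S χ k' ≠ 1 := by
  let q0 : G ⧸ S := ((1 : G) : G ⧸ S)
  have hk' : q0.out * k * q0.out⁻¹ ∈ K := hK.conj_mem k hk _
  refine ⟨_, hk', fun h => hχ ?_⟩
  have h1 := congrFun (congrArg (fun φ : Module.End ℂ (G ⧸ S → ℂ) => φ (fun _ => 1)) h) q0
  have e1 : coc S (q0.out * k * q0.out⁻¹) q0 = ⟨k, hKS hk⟩ := by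
    apply Subtype.ext
    simp only [coc, fix_of_normal S K hKS hk']
    group
  simp only [mono_apply, e1, mul_one, Module.End.one_apply] at h1
  exact Units.ext h1

theorem mono_finrank [Finite G] : finrank ℂ (G ⧸ S → ℂ) = S.index := by
  haveI : Fintype (G ⧸ S) := Fintype.ofFinite _
  rw [Module.finrank_fintype_fun_eq_card, Subgroup.index, Nat.card_eq_fintype_card]

end Mono

section Bound

variable {G : Type} [Group G] {V : Type} [AddCommGroup V] [Module ℂ V] [FiniteDimensional ℂ V]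
  [Nontrivial V] (ρ : Representation ℂ G V)

theorem exists_char (K : Subgroup G) (hcomm : ∀ a ∈ K, ∀ b ∈ K, a * b = b * a) :
    ∃ (v : V) (ψ : G → ℂ), v ≠ 0 ∧ ∀ k ∈ K, ρ k v = ψ k • v := by
  classical
  let P : ℕ → Prop := fun n => ∃ U : Submodule ℂ V, U ≠ ⊥ ∧ (∀ k ∈ K, ∀ v ∈ U, ρ k v ∈ U) ∧
    finrank ℂ U = n
  have hP : ∃ n, P n := ⟨_, ⊤, top_ne_bot, fun _ _ _ _ => trivial, rfl⟩
  obtain ⟨U, hU0, hUK, hUn⟩ := Nat.find_spec hP
  have hsc : ∀ k ∈ K, ∃ c : ℂ, ∀ v ∈ U, ρ k v = c • v := by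
    intro k hk
    haveI : Nontrivial U := Submodule.nontrivial_iff_ne_bot.mpr hU0
    obtain ⟨c, hc⟩ := Module.End.exists_eigenvalue ((ρ k).restrict (hUK k hk))
    obtain ⟨w, hw⟩ := hc.exists_hasEigenvector
    have hw1 : ρ k w = c • (w : V) := by
      have := congrArg Subtype.val hw.apply_eq_smul
      simpa using this
    let U' : Submodule ℂ V := U ⊓ Module.End.eigenspace (ρ k) c
    have hU' : U' ≠ ⊥ := by
      rw [Submodule.ne_bot_iff]
      exact ⟨w, ⟨w.2, Module.End.mem_eigenspace_iff.mpr hw1⟩, fun h => hw.2 (Subtype.ext h)⟩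
    have hU'K : ∀ k' ∈ K, ∀ v ∈ U', ρ k' v ∈ U' := by
      intro k' hk' v hv
      refine ⟨hUK k' hk' v hv.1, Module.End.mem_eigenspace_iff.mpr ?_⟩
      have h1 : ρ k v = c • v := Module.End.mem_eigenspace_iff.mp hv.2
      rw [← Module.End.mul_apply, ← map_mul, hcomm k hk k' hk', map_mul, Module.End.mul_apply, h1,
        map_smul]
    have hle : finrank ℂ U ≤ finrank ℂ U' := by
      rw [hUn]; exact Nat.find_min' hP ⟨U', hU', hU'K, rfl⟩
    have heq : U' = U := Submodule.eq_of_le_of_finrank_le inf_le_left hle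
    refine ⟨c, fun v hv => ?_⟩
    rw [← heq] at hv
    exact Module.End.mem_eigenspace_iff.mp hv.2
  choose! ψ hψ using hsc
  obtain ⟨v, hvU, hv0⟩ := (Submodule.ne_bot_iff U).mp hU0
  exact ⟨v, ψ, hv0, fun k hk => hψ k hk v hvU⟩

theorem finrank_lt_index [Finite G]
    (hirr : ∀ W : Submodule ℂ V, (∀ g v, v ∈ W → ρ g v ∈ W) → W = ⊥ ∨ W = ⊤)
    (K : Subgroup G) [hK : K.Normal] (hcomm : ∀ a ∈ K, ∀ b ∈ K, a * b = b * a)
    (hstab : ∀ ψ : G → ℂ, ψ 1 = 1 → (∀ a ∈ K, ∀ b ∈ K, ψ (a * b) = ψ a * ψ b) →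
      ∃ g, g ∉ K ∧ ∀ k ∈ K, ψ (g⁻¹ * k * g) = ψ k) :
    finrank ℂ V < K.index := by
  classical
  obtain ⟨v0, ψ, hv0, hψ⟩ := exists_char ρ K hcomm
  have hψ1 : ψ 1 = 1 := by
    have := hψ 1 K.one_mem
    rw [map_one, Module.End.one_apply] at this
    have h2 : (ψ 1 - 1) • v0 = 0 := by rw [sub_smul, ← this, one_smul, sub_self]
    exact sub_eq_zero.mp ((smul_eq_zero.mp h2).resolve_right hv0)
  have hψm : ∀ a ∈ K, ∀ b ∈ K, ψ (a * b) = ψ a * ψ b := by
    intro a ha b hb
    have h1 := hψ _ (K.mul_mem ha hb)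
    rw [map_mul, Module.End.mul_apply, hψ b hb, map_smul, hψ a ha, smul_smul] at h1
    have h2 : (ψ (a * b) - ψ a * ψ b) • v0 = 0 := by rw [sub_smul, ← h1, mul_comm, sub_self]
    exact sub_eq_zero.mp ((smul_eq_zero.mp h2).resolve_right hv0)
  obtain ⟨g, hgK, hg⟩ := hstab ψ hψ1 hψm
  let E : Submodule ℂ V :=
    { carrier := {v | ∀ k ∈ K, ρ k v = ψ k • v}
      add_mem' := fun {a b} ha hb k hk => by rw [map_add, ha k hk, hb k hk, smul_add]
      zero_mem' := fun k _ => by simp
      smul_mem' := fun c a ha k hk => by rw [map_smul, ha k hk, smul_comm] }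
  have hE : ∀ v ∈ E, ρ g v ∈ E := by
    intro v hv k hk
    have h1 : k * g = g * (g⁻¹ * k * g) := by group
    rw [← Module.End.mul_apply, ← map_mul, h1, map_mul, Module.End.mul_apply,
      hv _ (hK.conj_mem' k hk g), map_smul, hg k hk]
  haveI : Nontrivial E := Submodule.nontrivial_iff_ne_bot.mpr
    ((Submodule.ne_bot_iff E).mpr ⟨v0, hψ, hv0⟩)
  obtain ⟨c, hc⟩ := Module.End.exists_eigenvalue ((ρ g).restrict hE)
  obtain ⟨w, hw⟩ := hc.exists_hasEigenvector
  have hw1 : ρ g w = c • (w : V) := by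
    have := congrArg Subtype.val hw.apply_eq_smul
    simpa using this
  have hw0 : (w : V) ≠ 0 := fun h => hw.2 (Subtype.ext h)
  let H : Subgroup G :=
    { carrier := {h | ∃ a : ℂ, ρ h w = a • (w : V)}
      mul_mem' := by
        rintro a b ⟨x, hx⟩ ⟨y, hy⟩
        exact ⟨y * x, by rw [map_mul, Module.End.mul_apply, hy, map_smul, hx, smul_smul]⟩
      one_mem' := ⟨1, by simp⟩
      inv_mem' := by
        rintro a ⟨x, hx⟩
        have h1 : (w : V) = x • ρ a⁻¹ w := by
          rw [← map_smul, ← hx, ← Module.End.mul_apply, ← map_mul, inv_mul_cancel, map_one,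
            Module.End.one_apply]
        have hx0 : x ≠ 0 := by
          rintro rfl
          exact hw0 (by rw [h1, zero_smul])
        refine ⟨x⁻¹, ?_⟩
        conv_rhs => rw [h1]
        rw [smul_smul, inv_mul_cancel₀ hx0, one_smul] }
  have hKH : K ≤ H := fun k hk => ⟨ψ k, w.2 k hk⟩
  have hgH : g ∈ H := ⟨c, hw1⟩
  haveI : Fintype (G ⧸ H) := Fintype.ofFinite _
  let b : G ⧸ H → V := fun q => ρ q.out w
  have hmem : ∀ x : G, ρ x w ∈ Submodule.span ℂ (Set.range b) := by
    intro x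
    obtain ⟨⟨h, a, ha⟩, hh⟩ := QuotientGroup.mk_out_eq_mul H x
    have h1 : b (x : G ⧸ H) = a • ρ x w := by
      simp only [b, hh]
      rw [map_mul, Module.End.mul_apply, ha, map_smul]
    have ha0 : a ≠ 0 := by
      rintro rfl
      apply hw0
      have : (w : V) = ρ h⁻¹ (ρ h w) := by
        rw [← Module.End.mul_apply, ← map_mul, inv_mul_cancel, map_one, Module.End.one_apply]
      rw [this, ha, zero_smul, map_zero]
    have h2 : ρ x w = a⁻¹ • b (x : G ⧸ H) := by
      rw [h1, smul_smul, inv_mul_cancel₀ ha0, one_smul]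
    rw [h2]
    exact Submodule.smul_mem _ _ (Submodule.subset_span ⟨_, rfl⟩)
  have htop : Submodule.span ℂ (Set.range b) = ⊤ := by
    refine (hirr _ ?_).resolve_left ?_
    · intro x v hv
      induction hv using Submodule.span_induction with
      | mem y hy =>
        obtain ⟨q, rfl⟩ := hy
        simp only [b]
        rw [← Module.End.mul_apply, ← map_mul]
        exact hmem _
      | zero => simp
      | add y z _ _ hy hz => rw [map_add]; exact Submodule.add_mem _ hy hz
      | smul a y _ hy => rw [map_smul]; exact Submodule.smul_mem _ _ hy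
    · rw [Submodule.eq_bot_iff]
      intro h
      have := h _ (hmem 1)
      rw [map_one, Module.End.one_apply] at this
      exact hw0 this
  have h1 : finrank ℂ V ≤ H.index := by
    have := finrank_range_le_card (R := ℂ) b
    rw [Set.finrank, htop, finrank_top] at this
    rwa [Subgroup.index, Nat.card_eq_fintype_card]
  have h2 := Subgroup.relIndex_mul_index hKH
  have h3 : K.relIndex H ≠ 1 := fun h => hgK (Subgroup.relIndex_eq_one.mp h hgH)
  have h4 : K.index ≠ 0 := Subgroup.index_ne_zero_of_finite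
  have h5 : K.relIndex H ≠ 0 := fun h => h4 (by rw [← h2, h, zero_mul])
  have h6 : H.index ≠ 0 := Subgroup.index_ne_zero_of_finite
  have h7 : 2 ≤ K.relIndex H := by omega
  have : 2 * H.index ≤ K.index := by rw [← h2]; exact Nat.mul_le_mul_right _ h7
  omega

end Bound

end H909Z.Onn
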